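import Mathlib

/-!
# Project CD (MP_1d6ef7_nt, case k = 2 of Q1 in full): `Φ_{pq}'` has exactly 3 real roots
-/

namespace Pool.Agent.X119.CD

open Polynomial

/-- KEY identity `Φ_{pq} (X^p-1)(X^q-1) = (X^{pq}-1)(X-1)` (from `cyclotomic_expand_eq_cyclotomic_mul`,
`cyclotomic_prime_mul_X_sub_one`); helper119 does it. -/
def S_KEY : Prop := ∀ p q : ℕ, p.Prime → q.Prime → p ≠ q →
  cyclotomic (p * q) ℝ * ((X ^ p - 1) * (X ^ q - 1)) = (X ^ (p * q) - 1) * (X - 1)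

/-- SV. `g` monotone, the sign of the coefficient `i` is `(-1)^(g i)` or 0: at most `g (deg) - g 0` sign
variations. Strong induction on the degree with `signVariations_eq_eraseLead_add_ite` (Mathlib
`Mathlib/Algebra/Polynomial/RuleOfSigns.lean`): if the leading coefficients of `P` (degree `d`) and `P.eraseLead`
(degree `d'`) have opposite signs, `g d` and `g d'` have different parity, so `g d' + 1 ≤ g d`. -/
def S_SV : Prop := ∀ (P : ℝ[X]) (g : ℕ → ℕ), Monotone g → (∀ i, 0 ≤ (-1 : ℝ) ^ (g i) * P.coeff i) →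
  P.signVariations ≤ g P.natDegree - g 0

/-- NEG, from SV and KEY (wlog `p < q`, `n = pq`). `Ψ(y) = Φ(-y)`, `A = (y^n+1)(y+1)`, `B = (y^p+1)(y^q+1)`, `Ψ B = A`,
so `Ψ' B² = W := A'B - AB'`,
`W = (n+1-p-q) y^(n+p+q) + (n-p-q) y^(n+p+q-1) + (n+1-p) y^(n+p) + (n+1-q) y^(n+q) + (n-p) y^(n+p-1)
 + (n-q) y^(n+q-1) + (n+1) y^n + n y^(n-1)
 - (p+q-1) y^(p+q) - (p+q) y^(p+q-1) - (p-1) y^p - (q-1) y^q - p y^(p-1) - q y^(q-1) + 1`,
`p + q < n - 1`, so SV with `g i = 0` (`i = 0`), `1` (`1 ≤ i < n-1`), `2` (`i ≥ n-1`) and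
`roots_countP_pos_le_signVariations` give at most 2 positive roots of `W`, so at most 2 of
`Ψ' = -Φ'(-y)` (roots of a product are the sum of the roots). -/
def S_NEG : Prop := ∀ p q : ℕ, p.Prime → q.Prime → Odd p → Odd q → p < q →
  (derivative (cyclotomic (p * q) ℝ)).roots.countP (· < 0) ≤ 2

/-- POS, from SV and KEY. `A = (x^n-1)(x-1)`, `B = (x^p-1)(x^q-1)`, `Φ B = A`, `Φ' B² = W := A'B - AB'`.
With `g = ∑_{i<p-1} x^i`
`V := (n+1-p-q) x^(n+p+q-1) + (x^(n+q) - x^n - x^q + 1) g - (n-q) x^(n+q-1) - (n+1-p) x^(n+p-1)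
  + n x^(n-1) + (p+q-1) x^(p+q-1) - q x^(q-1) - (p-1) x^(p-1)`
satisfies `(x-1) V = W`. The coefficients of `V` are `≥ 0` for `i < p-1`, `≤ 0` for `p-1 ≤ i < p+q-1`,
`≥ 0` for `p+q-1 ≤ i < n`, `≤ 0` for `n ≤ i < n+q`, `≥ 0` for `i ≥ n+q` (use `p < q`, `p+q < n-1`), so at most 4
sign variations. `B = (x-1)² B₁`, so `V = (x-1)³ B₁² Φ'`: the positive roots of `V` are at least 3 (the root 1)
plus those of `Φ'`. -/
def S_POS : Prop := ∀ p q : ℕ, p.Prime → q.Prime → Odd p → Odd q → p < q →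
  (derivative (cyclotomic (p * q) ℝ)).roots.countP (0 < ·) ≤ 1

end Pool.Agent.X119.CD
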