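import Mathlib
import Pool.Agent.X119.CD.Stm

namespace Pool.Agent.X119.CD

open Polynomial

theorem t_KEY : S_KEY := by
  intro p q hp hq hpq
  have : Fact p.Prime := ⟨hp⟩
  have h1 : cyclotomic p ℝ * (X - 1) = X ^ p - 1 := cyclotomic_prime_mul_X_sub_one ℝ p
  have h2 : expand ℝ q (cyclotomic p ℝ) = cyclotomic (p * q) ℝ * cyclotomic p ℝ :=
    cyclotomic_expand_eq_cyclotomic_mul hq (fun h => hpq ((Nat.prime_dvd_prime_iff_eq hq hp).mp h).symm) ℝ
  have h3 := congrArg (expand ℝ q) h1
  rw [map_mul, h2, map_sub, map_sub, map_pow, expand_X, map_one, ← pow_mul] at h3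
  rw [mul_comm q p] at h3
  rw [← h1]
  linear_combination (X - 1) * h3

lemma zero_not_root (p q : ℕ) (hp : p.Prime) (hq : q.Prime) (hpq : p ≠ q) :
    (derivative (cyclotomic (p * q) ℝ)).eval 0 ≠ 0 := by
  have h := t_KEY p q hp hq hpq
  have h1 := congrArg (fun P : ℝ[X] => P.eval 0) h
  have h2 := congrArg (fun P : ℝ[X] => (derivative P).eval 0) h
  have hp2 : p - 1 ≠ 0 := by have := hp.two_le; omega
  have hq2 : q - 1 ≠ 0 := by have := hq.two_le; omega
  have hpq2 : p * q - 1 ≠ 0 := by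
    have := hp.two_le
    have := hq.two_le
    have : 4 ≤ p * q := by nlinarith
    omega
  have hp0 : p ≠ 0 := hp.ne_zero
  have hq0 : q ≠ 0 := hq.ne_zero
  have hpq0 : p * q ≠ 0 := mul_ne_zero hp0 hq0
  simp only [derivative_mul, derivative_sub, derivative_X_pow, derivative_one, derivative_X, eval_add, eval_mul,
    eval_sub, eval_pow, eval_X, eval_one, eval_C, eval_zero, zero_pow hp0, zero_pow hq0, zero_pow hpq0,
    zero_pow hp2, zero_pow hq2, zero_pow hpq2] at h1 h2
  intro h0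
  rw [h0] at h2
  norm_num at h1 h2

theorem main3 (hNEG : S_NEG) (hPOS : S_POS) (p q : ℕ) (hp : p.Prime) (hq : q.Prime) (hpo : Odd p)
    (hqo : Odd q) (hpq : p < q) : (derivative (cyclotomic (p * q) ℝ)).roots.card ≤ 3 := by
  have h1 := hNEG p q hp hq hpo hqo hpq
  have h2 := hPOS p q hp hq hpo hqo hpq
  set s := (derivative (cyclotomic (p * q) ℝ)).roots with hs
  have h3 : s.card = s.countP (· < 0) + s.countP (fun x => ¬ x < 0) :=
    Multiset.card_eq_countP_add_countP _ s
  have h4 : s.countP (fun x => ¬ x < 0) = s.countP (0 < ·) := by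
    apply Multiset.countP_congr rfl
    intro x hx
    have hx0 : x ≠ 0 := by
      rintro rfl
      exact zero_not_root p q hp hq hpq.ne ((mem_roots'.mp hx).2)
    rw [eq_iff_iff, not_lt]
    exact ⟨fun h => lt_of_le_of_ne h (Ne.symm hx0), le_of_lt⟩
  rw [h3, h4]
  omega

end Pool.Agent.X119.CD
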